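import Pool.Agent.FTU.Stmts

/-!
# FTU (MP_8cfbae_mp), row TRC: the trial function is of class `TC`
-/

set_option autoImplicit false
set_option linter.unusedSectionVars false
set_option linter.unusedVariables false

open MeasureTheory Complex ProbabilityTheory

namespace Pool.Agent.FTU.H81

open Pool.Agent.Helper49_Pauli
open Pool.Agent.MBX
open Pool.Agent.FTU
open Pool.Agent.Loc (γn PB)

variable {ι : Type} [Fintype ι] [DecidableEq ι]

theorem eval_conj (P : MvPolynomial ι ℂ) (y : ι → ℝ) :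
    MvPolynomial.eval (fun i => ((y i : ℝ) : ℂ)) (MvPolynomial.map (starRingEnd ℂ) P) =
      (starRingEnd ℂ) (MvPolynomial.eval (fun i => ((y i : ℝ) : ℂ)) P) := by
  induction P using MvPolynomial.induction_on with
  | C a => rw [MvPolynomial.map_C, MvPolynomial.eval_C, MvPolynomial.eval_C]
  | add p q hp hq => rw [map_add, map_add, map_add, map_add, hp, hq]
  | mul_X p i hp =>
    rw [map_mul, map_mul, map_mul, map_mul, hp, MvPolynomial.map_X, MvPolynomial.eval_X,
      Complex.conj_ofReal]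

theorem ps_conj {q : (ι → ℝ) → X3 → ℂ} (hq : q ∈ PS ι) :
    (fun y x => (starRingEnd ℂ) (q y x)) ∈ PS ι := by
  unfold PS at hq
  induction hq using Submodule.span_induction with
  | mem h hh =>
    obtain ⟨P, f, hf, rfl⟩ := hh
    refine Submodule.subset_span ⟨MvPolynomial.map (starRingEnd ℂ) P,
      fun x => (starRingEnd ℂ) (f x), ?_, ?_⟩
    · exact Complex.conjCLE.contDiff.comp hf
    · funext y x
      show (starRingEnd ℂ) (_ * _) = _ * _
      rw [map_mul, eval_conj]
  | zero =>
    have : (fun (y : ι → ℝ) (x : X3) => (starRingEnd ℂ) ((0 : (ι → ℝ) → X3 → ℂ) y x)) = 0 := by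
      funext y x
      exact map_zero _
    rw [this]
    exact Submodule.zero_mem _
  | add u v _ _ hu hv =>
    have : (fun (y : ι → ℝ) (x : X3) => (starRingEnd ℂ) ((u + v) y x)) =
        (fun y x => (starRingEnd ℂ) (u y x)) + fun y x => (starRingEnd ℂ) (v y x) := by
      funext y x
      exact map_add _ _ _
    rw [this]
    exact Submodule.add_mem _ hu hv
  | smul a u _ hu =>
    have : (fun (y : ι → ℝ) (x : X3) => (starRingEnd ℂ) ((a • u) y x)) =
        (starRingEnd ℂ) a • fun y x => (starRingEnd ℂ) (u y x) := by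
      funext y x
      exact map_mul _ _ _
    rw [this]
    exact Submodule.smul_mem _ _ hu

theorem ps_re {q : (ι → ℝ) → X3 → ℂ} (hq : q ∈ PS ι) :
    (fun y x => (((q y x).re : ℝ) : ℂ)) ∈ PS ι := by
  have : (fun (y : ι → ℝ) (x : X3) => (((q y x).re : ℝ) : ℂ)) =
      (1 / 2 : ℂ) • (q + fun y x => (starRingEnd ℂ) (q y x)) := by
    funext y x
    show (((q y x).re : ℝ) : ℂ) = (1 / 2 : ℂ) * (q y x + (starRingEnd ℂ) (q y x))
    rw [Complex.add_conj]
    push_cast
    ring
  rw [this]
  exact Submodule.smul_mem _ _ (Submodule.add_mem _ hq (ps_conj hq))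

/-- a primitive of a smooth function is smooth -/
theorem smooth_prim {f : ℝ → ℂ} (hf : ContDiff ℝ (⊤ : ℕ∞) f) :
    ContDiff ℝ (⊤ : ℕ∞) (fun z : ℝ => ∫ s in (0 : ℝ)..z, f s) := by
  have hd : ∀ z : ℝ, HasDerivAt (fun z : ℝ => ∫ s in (0 : ℝ)..z, f s) (f z) z := fun z =>
    intervalIntegral.integral_hasDerivAt_right (hf.continuous.intervalIntegrable _ _)
      (hf.continuous.stronglyMeasurableAtFilter _ _) hf.continuous.continuousAt
  refine contDiff_infty_iff_deriv.2 ⟨fun z => (hd z).differentiableAt, ?_⟩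
  have : deriv (fun z : ℝ => ∫ s in (0 : ℝ)..z, f s) = f := funext fun z => (hd z).deriv
  rw [this]
  exact hf

/-- the primitive along the axis -/
theorem ps_prim {q : (ι → ℝ) → X3 → ℂ} (hq : q ∈ PS ι) :
    (∀ y, Continuous (q y)) ∧
      (fun (y : ι → ℝ) (x : X3) => ∫ s in (0 : ℝ)..(x 2), q y (Pi.single 2 s)) ∈ PS ι := by
  have hs : Continuous fun s : ℝ => (Pi.single 2 s : X3) :=
    (ContinuousLinearMap.single ℝ (fun _ : Fin 3 => ℝ) 2).continuous
  unfold PS at hq
  induction hq using Submodule.span_induction with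
  | mem h hh =>
    obtain ⟨P, f, hf, rfl⟩ := hh
    refine ⟨fun y => continuous_const.mul hf.continuous, Submodule.subset_span ⟨P,
      fun x => ∫ s in (0 : ℝ)..(x 2), f (Pi.single 2 s), ?_, ?_⟩⟩
    · have hsm : ContDiff ℝ (⊤ : ℕ∞) fun s : ℝ => (Pi.single 2 s : X3) :=
        (ContinuousLinearMap.single ℝ (fun _ : Fin 3 => ℝ) 2).contDiff
      have h1 := smooth_prim (hf.comp hsm)
      exact h1.comp (contDiff_apply ℝ ℝ (2 : Fin 3))
    · funext y x
      show ∫ s in (0 : ℝ)..(x 2), _ * f (Pi.single 2 s) = _ * _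
      rw [intervalIntegral.integral_const_mul]
  | zero =>
    refine ⟨fun y => continuous_const, ?_⟩
    have : (fun (y : ι → ℝ) (x : X3) =>
        ∫ s in (0 : ℝ)..(x 2), (0 : (ι → ℝ) → X3 → ℂ) y (Pi.single 2 s)) = 0 := by
      funext y x
      exact intervalIntegral.integral_zero
    rw [this]
    exact Submodule.zero_mem _
  | add u v _ _ hu hv =>
    refine ⟨fun y => (hu.1 y).add (hv.1 y), ?_⟩
    have : (fun (y : ι → ℝ) (x : X3) => ∫ s in (0 : ℝ)..(x 2), (u + v) y (Pi.single 2 s)) =
        (fun y x => ∫ s in (0 : ℝ)..(x 2), u y (Pi.single 2 s)) +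
          fun y x => ∫ s in (0 : ℝ)..(x 2), v y (Pi.single 2 s) := by
      funext y x
      exact intervalIntegral.integral_add (((hu.1 y).comp hs).intervalIntegrable _ _)
        (((hv.1 y).comp hs).intervalIntegrable _ _)
    rw [this]
    exact Submodule.add_mem _ hu.2 hv.2
  | smul a u _ hu =>
    refine ⟨fun y => (hu.1 y).const_smul a, ?_⟩
    have : (fun (y : ι → ℝ) (x : X3) => ∫ s in (0 : ℝ)..(x 2), (a • u) y (Pi.single 2 s)) =
        a • fun y x => ∫ s in (0 : ℝ)..(x 2), u y (Pi.single 2 s) := by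
      funext y x
      exact intervalIntegral.integral_const_mul _ _
    rw [this]
    exact Submodule.smul_mem _ _ hu.2

theorem smooth_coord (j : Fin 3) : ContDiff ℝ (⊤ : ℕ∞) fun x : X3 => ((x j : ℝ) : ℂ) :=
  Complex.ofRealCLM.contDiff.comp (contDiff_apply ℝ ℝ j)

theorem smooth_zt (et : ℝ) : ContDiff ℝ (⊤ : ℕ∞) (zt et) := by
  unfold zt
  exact ((smooth_coord 0).add (contDiff_const.mul (smooth_coord 1))).div_const _

theorem smooth_gs (et : ℝ) : ContDiff ℝ (⊤ : ℕ∞) (gs et) := by
  unfold gs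
  exact Real.contDiff_exp.comp (((((contDiff_apply ℝ ℝ (0 : Fin 3)).pow 2).add
    ((contDiff_apply ℝ ℝ (1 : Fin 3)).pow 2)).div_const _).neg)

theorem smooth_jm (S : Sys ι) (i : ι) (c : Fin 3) (p q r : ℕ) :
    ContDiff ℝ (⊤ : ℕ∞) fun x : X3 => ((S.jm i c p q r (x 2) : ℝ) : ℂ) := by
  unfold Sys.jm
  refine Complex.ofRealCLM.contDiff.comp (contDiff_const.mul (Real.contDiff_cos.comp ?_))
  exact ((contDiff_const.mul (contDiff_apply ℝ ℝ (2 : Fin 3))).sub contDiff_const).add
    contDiff_const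

theorem pol_mem (psa : PsaStmt) (S : Sys ι) (et : ℝ) (P : RR) :
    (fun (y : ι → ℝ) (x : X3) => S.pol et P y x) ∈ PS ι := by
  obtain ⟨p1, -, p3, p4, -⟩ := psa ι
  induction P using MvPolynomial.induction_on with
  | C a =>
    have : (fun (y : ι → ℝ) (x : X3) => S.pol et (MvPolynomial.C a) y x) = fun _ _ => a := by
      funext y x
      exact MvPolynomial.eval_C _
    rw [this]
    exact p3 (fun _ => a) contDiff_const
  | add p q hp hq =>
    have : (fun (y : ι → ℝ) (x : X3) => S.pol et (p + q) y x) =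
        (fun y x => S.pol et p y x) + fun y x => S.pol et q y x := by
      funext y x
      exact map_add _ _ _
    rw [this]
    exact Submodule.add_mem _ hp hq
  | mul_X p v hp =>
    have : (fun (y : ι → ℝ) (x : X3) => S.pol et (p * MvPolynomial.X v) y x) =
        fun y x => S.pol et p y x * pt et (S.jt et y (x 2)) (zt et x) v := by
      funext y x
      show MvPolynomial.eval _ (p * MvPolynomial.X v) = _
      rw [map_mul, MvPolynomial.eval_X]
      rfl
    rw [this]
    refine p1 _ hp _ ?_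
    cases v with
    | eta => exact p3 (fun _ => (et : ℂ)) contDiff_const
    | z => exact p3 (zt et) (smooth_zt et)
    | zb => exact p3 (fun x => (starRingEnd ℂ) (zt et x)) (Complex.conjCLE.contDiff.comp (smooth_zt et))
    | jet c a b r =>
      have h1 : (fun (y : ι → ℝ) (x : X3) => pt et (S.jt et y (x 2)) (zt et x) (Var.jet c a b r)) =
          (∑ i, fun (y : ι → ℝ) (x : X3) => (y i : ℂ) * ((S.jm i c a b r (x 2) : ℝ) : ℂ)) -
            fun _ _ => ((idl et c a b r : ℝ) : ℂ) := by
        funext y x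
        show (((∑ i, y i * S.jm i c a b r (x 2)) - idl et c a b r : ℝ) : ℂ) = _
        rw [Pi.sub_apply, Pi.sub_apply, Finset.sum_apply, Finset.sum_apply]
        push_cast
        rfl
      rw [h1]
      refine Submodule.sub_mem _ (Submodule.sum_mem _ fun i _ => ?_)
        (p3 (fun _ => ((idl et c a b r : ℝ) : ℂ)) contDiff_const)
      exact p1 _ (p4 i) _ (p3 _ (smooth_jm S i c a b r))

/-- **TRC** -/
theorem trc (h1 : EvxStmt) (psa : PsaStmt) : TrcStmt := by
  intro ι _ _ S et eps u f ch het hch hcs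
  obtain ⟨p1, p2, p3, p4, -⟩ := psa ι
  refine ⟨fun y x => S.Th et eps y (x 2),
    fun y x => ((ch x * gs et x : ℝ) : ℂ) • ![S.pol et u y x, S.pol et f y x], ?_, ?_, ?_⟩
  · have hzt : ∀ s : ℝ, zt et (Pi.single 2 s : X3) = 0 := by
      intro s
      unfold zt
      have e0 : (Pi.single (2 : Fin 3) s : X3) 0 = 0 := Pi.single_eq_of_ne (by decide) _
      have e1 : (Pi.single (2 : Fin 3) s : X3) 1 = 0 := Pi.single_eq_of_ne (by decide) _
      rw [e0, e1, Complex.ofReal_zero, mul_zero, add_zero, zero_div]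
    have hpol : ∀ (y : ι → ℝ) (s : ℝ), S.pol et eps y (Pi.single 2 s) =
        ev et (S.jt et y s) 0 eps := by
      intro y s
      unfold Sys.pol
      rw [hzt, Pi.single_eq_same]
    have h2 := (ps_prim (ps_re (pol_mem psa S et eps))).2
    have h3 : (fun (y : ι → ℝ) (x : X3) => ((S.Th et eps y (x 2) : ℝ) : ℂ)) =
        (fun (_ : ι → ℝ) (x : X3) => ((x 2 / et : ℝ) : ℂ)) +
          fun (y : ι → ℝ) (x : X3) => ∫ s in (0 : ℝ)..(x 2),
            (((S.pol et eps y (Pi.single 2 s)).re : ℝ) : ℂ) := by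
      funext y x
      show ((S.Th et eps y (x 2) : ℝ) : ℂ) = ((x 2 / et : ℝ) : ℂ) + ∫ s in (0 : ℝ)..(x 2),
            (((S.pol et eps y (Pi.single 2 s)).re : ℝ) : ℂ)
      unfold Sys.Th
      rw [intervalIntegral.integral_ofReal, Complex.ofReal_add]
      congr 2
      exact intervalIntegral.integral_congr fun s _ => by
        show _ = _
        rw [hpol]
    rw [h3]
    refine Submodule.add_mem _ (p3 (fun x => ((x 2 / et : ℝ) : ℂ)) ?_) h2
    exact Complex.ofRealCLM.contDiff.comp ((contDiff_apply ℝ ℝ (2 : Fin 3)).div_const _)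
  · have hg : (fun (_ : ι → ℝ) (x : X3) => ((ch x * gs et x : ℝ) : ℂ)) ∈ SS ι := by
      refine Submodule.subset_span ⟨1, fun x => ((ch x * gs et x : ℝ) : ℂ), ⟨?_, ?_⟩, ?_⟩
      · exact Complex.ofRealCLM.contDiff.comp (hch.mul (smooth_gs et))
      · exact (hcs.mul_right (f' := gs et)).comp_left Complex.ofReal_zero
      · funext y x
        show _ = _ * _
        rw [map_one, one_mul]
    have hF : ∀ P : RR, (fun (y : ι → ℝ) (x : X3) => ((ch x * gs et x : ℝ) : ℂ) *
        S.pol et P y x) ∈ SS ι := by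
      intro P
      have := p2 _ (pol_mem psa S et P) _ hg
      have e : (fun (y : ι → ℝ) (x : X3) => ((ch x * gs et x : ℝ) : ℂ) * S.pol et P y x) =
          fun y x => S.pol et P y x * ((ch x * gs et x : ℝ) : ℂ) := by
        funext y x
        exact mul_comm _ _
      rw [e]
      exact this
    intro s
    fin_cases s
    · exact hF u
    · exact hF f
  · funext y x
    show (_ * _) • _ = _ • _ • _
    rw [mul_smul]

end Pool.Agent.FTU.H81
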