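import Pool.Agent.FTU.Stmts

/-!
# FTU (MP_8cfbae_mp), row PAR: the upper bound for large cutoffs
-/

set_option autoImplicit false

open MeasureTheory Complex ProbabilityTheory

namespace Pool.Agent.FTU.H81

open Pool.Agent.Helper49_Pauli
open Pool.Agent.MBX
open Pool.Agent.FTU
open Pool.Agent.Loc (γn PB)

theorem good_mono {ι : Type} [Fintype ι] {S : Sys ι} {K K' ell : ℝ} (h : S.Good K ell)
    (hK : K ≤ K') : S.Good K' ell where
  k1 := h.k1
  e1 := h.e1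
  w0 := h.w0
  w1 := h.w1
  cw := h.cw.trans hK
  bes := fun g a b hg hab hl => (h.bes g a b hg hab hl).trans
    (mul_le_mul_of_nonneg_right hK
      (intervalIntegral.integral_nonneg hab fun s _ => sq_nonneg (g s)))

theorem bg_mono {ι : Type} [Fintype ι] {S : Sys ι} {et l K K' cost : ℝ} {n : ℕ} {e : ι → ℝ}
    (h : S.Bg et l K cost n e) (hK : K ≤ K') : S.Bg et l K' cost n e :=
  ⟨h.1, fun c p q r hpq z hz => (h.2 c p q r hpq z hz).trans hK⟩

/-- the parameters -/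
theorem params {N del eps C C1 et l : ℝ} {M : ℕ} (hN : 1 ≤ N) (hdel : 0 < del)
    (hdel1 : del ≤ 1 / 40) (hde : 40 * del ≤ eps) (hM : 38 ≤ M * del) (hC1 : 0 ≤ C1)
    (het : et = N ^ (-del)) (hl : l = N ^ (1 / 3 : ℝ)) :
    N ^ 2 * (C ^ 2 * ((l⁻¹) ^ 2 + et ^ (2 * M - 4) +
      (1 + C1 * (et ^ 37)⁻¹ * l) * et ^ (4 * M))) / 2 + 2 * (N * (C ^ 2 * l)) +
      N * (C1 * (et ^ 37)⁻¹ * l) / 2 ≤
      (C ^ 2 / 2 * (3 + C1) + 2 * C ^ 2 + C1 / 2) * N ^ (4 / 3 + eps) := by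
  have hN0 : 0 < N := by linarith
  have hM4 : 4 ≤ 2 * M := by
    have h1 : (2 : ℝ) ≤ M := by
      by_contra hcon
      push Not at hcon
      nlinarith
    have : (2 : ℕ) ≤ M := by exact_mod_cast h1
    omega
  have hmul : ∀ a b : ℝ, N ^ a * N ^ b = N ^ (a + b) := fun a b => (Real.rpow_add hN0 a b).symm
  have hetk : ∀ k : ℕ, et ^ k = N ^ (-(del * k)) := by
    intro k
    rw [het, ← Real.rpow_natCast, ← Real.rpow_mul hN0.le]
    congr 1
    ring
  have hN2 : N ^ 2 = N ^ (2 : ℝ) := (Real.rpow_two N).symm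
  have hN1 : N = N ^ (1 : ℝ) := (Real.rpow_one N).symm
  have hl2 : (l⁻¹) ^ 2 = N ^ (-(2 / 3) : ℝ) := by
    rw [hl, ← Real.rpow_neg hN0.le, ← Real.rpow_natCast, ← Real.rpow_mul hN0.le]
    congr 1
    norm_num
  have h37 : (et ^ 37)⁻¹ = N ^ (37 * del) := by
    rw [hetk, ← Real.rpow_neg hN0.le]
    congr 1
    push_cast
    ring
  have key : ∀ s : ℝ, s ≤ 4 / 3 + eps → N ^ s ≤ N ^ (4 / 3 + eps) := fun s hs =>
    Real.rpow_le_rpow_of_exponent_le hN hs
  have heps : 0 < eps := by linarith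
  have hcast : ((2 * M - 4 : ℕ) : ℝ) = 2 * M - 4 := by
    rw [Nat.cast_sub hM4]
    push_cast
    ring
  have T1 : N ^ 2 * (l⁻¹) ^ 2 ≤ N ^ (4 / 3 + eps) := by
    rw [hN2, hl2, hmul]
    exact key _ (by linarith)
  have T2 : N ^ 2 * et ^ (2 * M - 4) ≤ N ^ (4 / 3 + eps) := by
    rw [hN2, hetk, hmul, hcast]
    refine key _ ?_
    nlinarith
  have T3 : N ^ 2 * et ^ (4 * M) ≤ N ^ (4 / 3 + eps) := by
    rw [hN2, hetk, hmul]
    refine key _ ?_
    push_cast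
    nlinarith
  have T4 : N ^ 2 * ((et ^ 37)⁻¹ * l * et ^ (4 * M)) ≤ N ^ (4 / 3 + eps) := by
    rw [hN2, hetk (4 * M), h37, hl, hmul, hmul, hmul]
    refine key _ ?_
    push_cast
    nlinarith
  have T5 : N * l ≤ N ^ (4 / 3 + eps) := by
    have : N * l = N ^ (4 / 3 : ℝ) := by
      rw [hl]
      nth_rewrite 1 [hN1]
      rw [hmul]
      congr 1
      norm_num
    rw [this]
    exact key _ (by linarith)
  have T6 : N * ((et ^ 37)⁻¹ * l) ≤ N ^ (4 / 3 + eps) := by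
    have : N * ((et ^ 37)⁻¹ * l) = N ^ (1 + (37 * del + 1 / 3) : ℝ) := by
      rw [h37, hl, hmul]
      nth_rewrite 1 [hN1]
      rw [hmul]
    rw [this]
    exact key _ (by linarith)
  have hC2 : 0 ≤ C ^ 2 / 2 := by positivity
  have hC3 : 0 ≤ 2 * C ^ 2 := by positivity
  have e1 := mul_le_mul_of_nonneg_left T1 hC2
  have e2 := mul_le_mul_of_nonneg_left T2 hC2
  have e3 := mul_le_mul_of_nonneg_left T3 hC2
  have e4 := mul_le_mul_of_nonneg_left T4 (mul_nonneg hC2 hC1)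
  have e5 := mul_le_mul_of_nonneg_left T5 hC3
  have e6 := mul_le_mul_of_nonneg_left T6 (by positivity : 0 ≤ C1 / 2)
  calc _ = C ^ 2 / 2 * (N ^ 2 * (l⁻¹) ^ 2) + C ^ 2 / 2 * (N ^ 2 * et ^ (2 * M - 4)) +
        C ^ 2 / 2 * (N ^ 2 * et ^ (4 * M)) +
        C ^ 2 / 2 * C1 * (N ^ 2 * ((et ^ 37)⁻¹ * l * et ^ (4 * M))) + 2 * C ^ 2 * (N * l) +
        C1 / 2 * (N * ((et ^ 37)⁻¹ * l)) := by ring
    _ ≤ C ^ 2 / 2 * N ^ (4 / 3 + eps) + C ^ 2 / 2 * N ^ (4 / 3 + eps) +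
        C ^ 2 / 2 * N ^ (4 / 3 + eps) + C ^ 2 / 2 * C1 * N ^ (4 / 3 + eps) +
        2 * C ^ 2 * N ^ (4 / 3 + eps) + C1 / 2 * N ^ (4 / 3 + eps) := by linarith
    _ = _ := by ring

/-- **PAR** -/
theorem par (alg : AlgStmt) (sel : SelStmt) (sca : ScaStmt) (cor : CorStmt) (god : GodStmt)
    (bga : BgaStmt) (bmp : BmpStmt) : ParStmt := by
  intro eps alpha heps halpha
  obtain ⟨del, hdel, hdel1, hde⟩ : ∃ del : ℝ, 0 < del ∧ del ≤ 1 / 40 ∧ 40 * del ≤ eps := by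
    refine ⟨min eps 1 / 40, by positivity, ?_, ?_⟩
    · have := min_le_right eps 1
      linarith
    · have := min_le_left eps 1
      linarith
  obtain ⟨M, hM'⟩ := exists_nat_ge (38 / del)
  have hM : 38 ≤ M * del := (div_le_iff₀ hdel).1 hM'
  have hM3 : 3 ≤ M := by
    have h1 : (3 : ℝ) ≤ M := by
      by_contra hcon
      push Not at hcon
      nlinarith
    exact_mod_cast h1
  obtain ⟨u, f, ep, r1, r2, g, h, hep, hepc, hu, hf, hD1, hD2⟩ := alg M
  obtain ⟨bp, CB, hbp⟩ := bmp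
  obtain ⟨n, hn⟩ := cor bp CB hbp M ep u f h r1 r2 hM3 hep hepc hf hD1 hD2
  obtain ⟨C1, et1, hC1, het1, het1', hbg⟩ := bga alpha n halpha
  obtain ⟨K0, hK0, hgood⟩ := god alpha halpha
  obtain ⟨C, et0, hC, het0, het0', hcor⟩ := hn (max C1 K0)
  have hmin : 0 < min et0 et1 := lt_min het0 het1
  refine ⟨C ^ 2 / 2 * (3 + C1) + 2 * C ^ 2 + C1 / 2, max 1 ((min et0 et1) ^ (-del⁻¹)),
    by positivity, le_max_left _ _, ?_⟩
  intro cut L hcut hL P D _ _ F
  have hN1 : 1 ≤ cut := (le_max_left _ _).trans hcut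
  have hN0 : 0 < cut := by linarith
  have hL0 : 0 < L := by linarith
  set et : ℝ := cut ^ (-del) with het
  set l : ℝ := cut ^ (1 / 3 : ℝ) with hl
  have hetpos : 0 < et := Real.rpow_pos_of_pos hN0 _
  have hlpos : 0 < l := Real.rpow_pos_of_pos hN0 _
  have hetmin : et ≤ min et0 et1 := by
    have h1 : (min et0 et1) ^ (-del⁻¹) ≤ cut := (le_max_right _ _).trans hcut
    have h2 : cut ^ (-del) ≤ ((min et0 et1) ^ (-del⁻¹)) ^ (-del) :=
      Real.rpow_le_rpow_of_nonpos (Real.rpow_pos_of_pos hmin _) h1 (by linarith)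
    rw [← Real.rpow_mul hmin.le, neg_mul_neg, inv_mul_cancel₀ hdel.ne', Real.rpow_one] at h2
    exact h2
  have hl1 : 1 ≤ l := Real.one_le_rpow hN1 (by norm_num)
  have hlN : l ≤ cut := by
    have := Real.rpow_le_rpow_of_exponent_le hN1 (by norm_num : (1 / 3 : ℝ) ≤ 1)
    rwa [Real.rpow_one] at this
  have hNL : cut ≤ L * cut := by nlinarith
  have hlet : l * (et ^ 3)⁻¹ ≤ L * cut := by
    have h1 : (et ^ 3)⁻¹ = cut ^ (3 * del) := by
      rw [het, ← Real.rpow_natCast, ← Real.rpow_mul hN0.le, ← Real.rpow_neg hN0.le]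
      congr 1
      push_cast
      ring
    have h2 : l * (et ^ 3)⁻¹ ≤ cut := by
      rw [h1, hl, ← Real.rpow_add hN0]
      have := Real.rpow_le_rpow_of_exponent_le hN1 (by linarith : 1 / 3 + 3 * del ≤ 1)
      rwa [Real.rpow_one] at this
    exact h2.trans hNL
  obtain ⟨e, he⟩ := hbg cut L P et l hN0 hL0 hetpos (hetmin.trans (min_le_right _ _)) hl1 hlet
  set cost : ℝ := C1 * (et ^ 37)⁻¹ * l with hcost
  have hcost0 : 0 ≤ cost := by positivity
  obtain ⟨c1, c2, c3, c4⟩ := hcor (Mode cut L) (msys alpha P) (L * cut) et l cost e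
    (good_mono (hgood cut L hN0 hL0 P) (le_max_right _ _)) hetpos
    (hetmin.trans (min_le_left _ _)) hl1 (hlN.trans hNL) hcost0
    (bg_mono he (le_max_left _ _)) _ rfl
  set psi : (Mode cut L → ℝ) → X3 → S2 :=
    (fun y => (msys alpha P).tri et ep u f (sc bp l) fun i => y i + e i) with hpsi
  obtain ⟨s1, s2, s3, s4⟩ := sca cut L alpha P hN0 hL0 halpha psi e c1
  set n0 : ℝ := II (fun y x => nsq (psi y x)) with hn0
  have hle4 : 0 < l * et ^ 4 := by positivity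
  have hn0pos : 0 < n0 := by
    by_contra hcon
    push Not at hcon
    have : C * n0 ≤ 0 := mul_nonpos_of_nonneg_of_nonpos hC.le hcon
    linarith
  set X : ℝ := (l⁻¹) ^ 2 + et ^ (2 * M - 4) + (1 + cost) * et ^ (4 * M) with hX
  have hX0 : 0 ≤ X := by positivity
  have d3 : II (fun y x => nsq (dop ((msys alpha P).fld fun i => y i + e i) (psi y) x)) ≤
      C ^ 2 * X * n0 := by
    refine c3.trans ?_
    calc C * X * (l * et ^ 4) ≤ C * X * (C * n0) := mul_le_mul_of_nonneg_left c2 (by positivity)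
      _ = C ^ 2 * X * n0 := by ring
  have d4 : II (fun y x => ∑ i, (msys alpha P).w i * nsq (dY2 i psi y x)) ≤
      C ^ 2 * l * n0 := by
    refine c4.trans ?_
    calc C * l * (l * et ^ 4) ≤ C * l * (C * n0) := mul_le_mul_of_nonneg_left c2 (by positivity)
      _ = C ^ 2 * l * n0 := by ring
  have hsel := sel cut L alpha hL0 halpha.le P D F (fun y x => psi y (cut • x)) e
    (cut ^ 2 * (C ^ 2 * X)) (cut * (C ^ 2 * l)) s1
    (by
      rw [s2]
      positivity)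
    (by
      rw [s2]
      refine s3.le.trans ?_
      calc (cut ^ 3)⁻¹ * cut ^ 2 *
            II (fun y x => nsq (dop ((msys alpha P).fld fun i => y i + e i) (psi y) x)) ≤
          (cut ^ 3)⁻¹ * cut ^ 2 * (C ^ 2 * X * n0) := mul_le_mul_of_nonneg_left d3 (by positivity)
        _ = cut ^ 2 * (C ^ 2 * X) * ((cut ^ 3)⁻¹ * n0) := by ring)
    (by
      rw [s2]
      refine s4.le.trans ?_
      calc (cut ^ 3)⁻¹ * cut *
            II (fun y x => ∑ i, (msys alpha P).w i * nsq (dY2 i psi y x)) ≤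
          (cut ^ 3)⁻¹ * cut * (C ^ 2 * l * n0) := mul_le_mul_of_nonneg_left d4 (by positivity)
        _ = cut * (C ^ 2 * l) * ((cut ^ 3)⁻¹ * n0) := by ring)
  have hom : ∑ i, om i * e i ^ 2 ≤ cut * cost := by
    have h1 : ∑ i, om i * e i ^ 2 = cut * ∑ i, (msys alpha P).w i * e i ^ 2 := by
      rw [Finset.mul_sum]
      refine Finset.sum_congr rfl fun i _ => ?_
      show om i * e i ^ 2 = cut * (om i / cut * e i ^ 2)
      field_simp
    rw [h1]
    exact mul_le_mul_of_nonneg_left he.1 hN0.le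
  have hpar := params (C := C) (et := et) (l := l) (M := M) hN1 hdel hdel1 hde hM hC1.le het hl
  refine hsel.trans (le_trans ?_ hpar)
  show cut ^ 2 * (C ^ 2 * X) / 2 + 2 * (cut * (C ^ 2 * l)) + (∑ i, om i * e i ^ 2) / 2 ≤
    cut ^ 2 * (C ^ 2 * X) / 2 + 2 * (cut * (C ^ 2 * l)) + cut * cost / 2
  linarith

end Pool.Agent.FTU.H81
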